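import Pool.Agent.Q167.LightsOut.Fib

/-!
# No common roots

The common roots of `F (2 * 3 ^ k)` and of its translate are `0` and `1` only.
-/

set_option autoImplicit false

namespace Q167.LightsOut

open Polynomial

/-- `4 ^ (3 ^ i) = 1 + 3 ^ (i + 1) * u` with `u` prime to `3`. -/
lemma four_pow (i : ℕ) : ∃ u : ℕ, 4 ^ (3 ^ i) = 1 + 3 ^ (i + 1) * u ∧ u % 3 = 1 := by
  induction i with
  | zero => exact ⟨1, by norm_num, by norm_num⟩
  | succ i ih =>
    obtain ⟨u, h1, h2⟩ := ih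
    refine ⟨u + 3 * (3 ^ i * u ^ 2 + 3 ^ i * (3 ^ i * u ^ 3)), ?_, by omega⟩
    rw [pow_succ 3 i, pow_mul, h1]
    ring

section field

variable {K : Type} [Field K] [CharP K 2] [Algebra (ZMod 2) K]

omit [Algebra (ZMod 2) K] in
lemma two_zero' : (2 : K) = 0 := CharTwo.two_eq_zero

lemma aeval_D {z : K} (hz : z ≠ 0) (i : ℕ) :
    aeval (z + z⁻¹) (D i) = z ^ (3 ^ i) + z⁻¹ ^ (3 ^ i) := by
  induction i with
  | zero => simp [D]
  | succ i ih =>
    have h2 : (2 : K) = 0 := two_zero'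
    rw [D, map_mul, map_pow, map_add, ih, map_one, pow_succ 3 i, pow_mul, pow_mul]
    have hab : z ^ (3 ^ i) * z⁻¹ ^ (3 ^ i) = 1 := by
      rw [← mul_pow, mul_inv_cancel₀ hz, one_pow]
    generalize z ^ (3 ^ i) = a at hab ⊢
    generalize z⁻¹ ^ (3 ^ i) = b at hab ⊢
    linear_combination (3 * a + 3 * b + 4) * hab + (a ^ 2 + b ^ 2 + 2 * a + 2 * b + 2) * h2

omit [CharP K 2] in
lemma aeval_D_zero (i : ℕ) : aeval (0 : K) (D i) = 0 := by
  induction i with
  | zero => simp [D]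
  | succ i ih => rw [D, map_mul, ih, zero_mul]

omit [Algebra (ZMod 2) K] in
/-- `x ↦ x ^ (4 ^ e)` is additive. -/
lemma frob_add (e : ℕ) (x y : K) : (x + y) ^ (4 ^ e) = x ^ (4 ^ e) + y ^ (4 ^ e) := by
  have : (4 : ℕ) ^ e = 2 ^ (2 * e) := by rw [pow_mul]; norm_num
  rw [this]
  exact add_pow_char_pow (p := 2) (n := 2 * e) x y

/-- The trace-like sum vanishes at `z + z⁻¹` if `z ^ (3 ^ i)` is a primitive cube root of one. -/
lemma trace_zero {z : K} (hz : z ≠ 0) {i : ℕ} (hi : 1 ≤ i)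
    (h : aeval (z + z⁻¹) (D i) = 1) :
    (z + z⁻¹) + (z + z⁻¹) ^ (4 ^ (3 ^ (i - 1)))
      + ((z + z⁻¹) ^ (4 ^ (3 ^ (i - 1)))) ^ (4 ^ (3 ^ (i - 1))) = 0 := by
  have h2 : (2 : K) = 0 := two_zero'
  rw [aeval_D hz] at h
  set w : K := z ^ (3 ^ i) with hw
  have hw0 : w ≠ 0 := pow_ne_zero _ hz
  have hwinv : z⁻¹ ^ (3 ^ i) = w⁻¹ := by rw [hw, inv_pow]
  rw [hwinv] at h
  have hq : w ^ 2 + w + 1 = 0 := by
    have h3 : w * (w + w⁻¹) = w * 1 := by rw [h]
    rw [mul_add, mul_inv_cancel₀ hw0] at h3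
    linear_combination h3 + w * h2
  have hw3 : w ^ 3 = 1 := by linear_combination (w - 1) * hq
  obtain ⟨u, hu1, hu2⟩ := four_pow (i - 1)
  rw [Nat.sub_add_cancel hi] at hu1
  -- `w ^ u = w`
  have hwu : w ^ u = w := by
    rw [← Nat.div_add_mod u 3, hu2, pow_add, pow_mul, hw3]
    simp
  set q := 4 ^ (3 ^ (i - 1)) with hqdef
  have hzq : z ^ q = z * w := by
    rw [hu1, pow_add, pow_one, pow_mul, ← hw, hwu]
  have hwq : w ^ q = w := by
    have hq3 : q % 3 = 1 := by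
      rw [hqdef, Nat.pow_mod]; norm_num
    rw [← Nat.div_add_mod q 3, hq3, pow_add, pow_mul, hw3]
    simp
  have hzi : z⁻¹ ^ q = z⁻¹ * w⁻¹ := by rw [inv_pow, hzq, mul_inv]
  have hwi : w⁻¹ ^ q = w⁻¹ := by rw [inv_pow, hwq]
  have hA : ∀ x y : K, (x + y) ^ q = x ^ q + y ^ q := fun x y => frob_add _ x y
  have hwi2 : w⁻¹ = w ^ 2 := by
    apply mul_left_cancel₀ hw0
    rw [mul_inv_cancel₀ hw0]
    linear_combination (-1 : K) * hw3
  rw [hA, hzq, hzi, hA, mul_pow, mul_pow, hzq, hzi, hwq, hwi, hwi2]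
  linear_combination (z + z⁻¹ * (w ^ 2 - w + 1)) * hq

end field

/-- The algebraic closure of the field with two elements. -/
abbrev KK : Type := AlgebraicClosure (ZMod 2)

instance : CharP KK 2 := AlgebraicClosure.instCharP (ZMod 2)

lemma exists_z (α : KK) : ∃ z : KK, z ≠ 0 ∧ z + z⁻¹ = α := by
  have h2 : (2 : KK) = 0 := two_zero'
  have hdeg : (X ^ 2 + C α * X + C 1 : KK[X]).degree = 2 := by
    have := degree_quadratic (a := (1 : KK)) (b := α) (c := 1) one_ne_zero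
    simpa using this
  obtain ⟨z, hz⟩ := IsAlgClosed.exists_root (X ^ 2 + C α * X + C 1 : KK[X]) (by
    rw [hdeg]; exact two_ne_zero)
  have hz' : z ^ 2 + α * z + 1 = 0 := by
    simpa [IsRoot] using hz
  have hz0 : z ≠ 0 := by
    rintro rfl
    simp at hz'
  refine ⟨z, hz0, ?_⟩
  have h3 : z * (z + z⁻¹) = z * α := by
    rw [mul_add, mul_inv_cancel₀ hz0]
    linear_combination hz' - α * z * h2
  exact mul_left_cancel₀ hz0 h3

lemma no_common_aux (α : KK) (i j : ℕ) (hj : 1 ≤ j) (hji : j ≤ i)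
    (h1 : aeval α (D i) = 1) (h2 : aeval (α + 1) (D j) = 1) : False := by
  have htwo : (2 : KK) = 0 := two_zero'
  obtain ⟨z, hz, hzα⟩ := exists_z α
  obtain ⟨w, hw, hwα⟩ := exists_z (α + 1)
  have hi : 1 ≤ i := hj.trans hji
  have hT := trace_zero hz hi (by rw [hzα]; exact h1)
  rw [hzα] at hT
  rcases hji.eq_or_lt with rfl | hlt
  · have hT' := trace_zero hw hj (by rw [hwα]; exact h2)
    rw [hwα, frob_add, one_pow, frob_add, one_pow] at hT'
    have : (1 : KK) = 0 := by linear_combination hT' - hT - htwo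
    exact one_ne_zero this
  · rw [← hwα, aeval_D hw] at h2
    set v : KK := w ^ (3 ^ j) with hv
    have hv0 : v ≠ 0 := pow_ne_zero _ hw
    have hvinv : w⁻¹ ^ (3 ^ j) = v⁻¹ := by rw [hv, inv_pow]
    rw [hvinv] at h2
    have hq : v ^ 2 + v + 1 = 0 := by
      have h3 : v * (v + v⁻¹) = v * 1 := by rw [h2]
      rw [mul_add, mul_inv_cancel₀ hv0] at h3
      linear_combination h3 + v * htwo
    have hv3 : v ^ 3 = 1 := by linear_combination (v - 1) * hq
    have hw3 : w ^ (3 ^ i) = 1 := by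
      obtain ⟨d, rfl⟩ : ∃ d, i = j + 1 + d := ⟨i - (j + 1), by omega⟩
      rw [pow_add, pow_succ, pow_mul, pow_mul, ← hv, hv3, one_pow]
    obtain ⟨u, hu1, hu2⟩ := four_pow (i - 1)
    rw [Nat.sub_add_cancel hi] at hu1
    have hwq : w ^ (4 ^ (3 ^ (i - 1))) = w := by
      rw [hu1, pow_add, pow_one, pow_mul, hw3, one_pow, mul_one]
    have hfix : (α + 1) ^ (4 ^ (3 ^ (i - 1))) = α + 1 := by
      rw [← hwα, frob_add, inv_pow, hwq]
    rw [frob_add, one_pow] at hfix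
    have hfix' : α ^ (4 ^ (3 ^ (i - 1))) = α := add_right_cancel hfix
    rw [hfix', hfix'] at hT
    have h0 : α = 0 := by linear_combination hT - α * htwo
    rw [h0, aeval_D_zero] at h1
    exact zero_ne_one h1

lemma no_common (α : KK) (i j : ℕ) (hi : 1 ≤ i) (hj : 1 ≤ j)
    (h1 : aeval α (D i) = 1) (h2 : aeval (α + 1) (D j) = 1) : False := by
  rcases le_total j i with h | h
  · exact no_common_aux α i j hj h h1 h2
  · refine no_common_aux (α + 1) j i hi h h2 ?_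
    have : α + 1 + 1 = α := by
      have htwo : (2 : KK) = 0 := two_zero'
      linear_combination htwo
    rw [this]
    exact h1

lemma coprime_aux (k : ℕ) :
    IsCoprime ((X + 1) * U k) (X * (U k).comp (X + 1)) := by
  rw [isCoprime_iff_aeval_ne_zero_of_isAlgClosed (ZMod 2) KK]
  intro α
  by_contra hcon
  push Not at hcon
  obtain ⟨h1, h2⟩ := hcon
  have htwo : (2 : KK) = 0 := two_zero'
  have hU : ∀ β : KK, aeval β (U k) = 0 → ∃ i, 1 ≤ i ∧ aeval β (D i) = 1 := by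
    intro β hβ
    rw [U, map_prod, Finset.prod_eq_zero_iff] at hβ
    obtain ⟨i, hi, hβi⟩ := hβ
    rw [Finset.mem_Ico] at hi
    refine ⟨i, hi.1, ?_⟩
    rw [map_add, map_one] at hβi
    linear_combination hβi - htwo
  have hU0 : aeval (0 : KK) (U k) ≠ 0 := by
    intro h
    obtain ⟨i, hi, h3⟩ := hU 0 h
    rw [aeval_D_zero] at h3
    exact zero_ne_one h3
  rw [map_mul, mul_eq_zero] at h1 h2
  rw [aeval_comp] at h2
  simp only [map_add, aeval_X, map_one] at h1 h2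
  rcases h1 with h1 | h1
  · -- `α = 1`
    have hα : α = 1 := by linear_combination h1 - htwo
    rcases h2 with h2 | h2
    · rw [hα] at h2; exact one_ne_zero h2
    · rw [h1] at h2; exact hU0 h2
  · rcases h2 with h2 | h2
    · rw [h2] at h1; exact hU0 h1
    · obtain ⟨i, hi, h3⟩ := hU _ h1
      obtain ⟨j, hj, h4⟩ := hU _ h2
      exact no_common α i j hi hj h3 h4

/-- Bezout: `X (X + 1)` is a combination of `F (2 * 3 ^ k)` and its translate, `k ≥ 1`. -/
lemma bezout (k : ℕ) (hk : 1 ≤ k) :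
    ∃ a b : (ZMod 2)[X], a * F (2 * 3 ^ k) + b * (F (2 * 3 ^ k)).comp (X + 1) = X * (X + 1) := by
  obtain ⟨k, rfl⟩ : ∃ m, k = m + 1 := ⟨k - 1, by omega⟩
  have h := coprime_aux (k + 1)
  have h1 : IsCoprime ((X + 1) ^ 3 * U (k + 1) ^ 4) (X ^ 3 * ((U (k + 1)).comp (X + 1)) ^ 4) := by
    have h2 := (h.pow (m := 4) (n := 4))
    rw [mul_pow, mul_pow] at h2
    refine h2.of_isCoprime_of_dvd_left ?_ |>.of_isCoprime_of_dvd_right ?_
    · exact mul_dvd_mul (pow_dvd_pow _ (by norm_num)) dvd_rfl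
    · exact mul_dvd_mul (pow_dvd_pow _ (by norm_num)) dvd_rfl
  obtain ⟨a, b, hab⟩ := h1
  refine ⟨a, b, ?_⟩
  have hc : (F (2 * 3 ^ (k + 1))).comp (X + 1) =
      (X + 1) * X ^ 4 * ((U (k + 1)).comp (X + 1)) ^ 4 := by
    rw [F_pow]
    have h3 : (X + 1 + 1 : (ZMod 2)[X]) = X := by linear_combination two_zero
    simp only [mul_comp, pow_comp, add_comp, X_comp, one_comp, h3]
  rw [hc, F_pow]
  linear_combination (X * (X + 1)) * hab

end Q167.LightsOut
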