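import Mathlib

/-!
# Fibonacci polynomials over the field with two elements

`F 0 = 0`, `F 1 = 1`, `F (n + 2) = X * F (n + 1) + F n`. We show that the greatest common divisor of
`F (2 * 3 ^ k)` and of its translate by `X ↦ X + 1` is `X * (X + 1)`, for `k ≥ 1`.
-/

set_option autoImplicit false

namespace Q167.LightsOut

open Polynomial

/-- Fibonacci polynomials over `ZMod 2`. -/
noncomputable def F : ℕ → (ZMod 2)[X]
  | 0 => 0
  | 1 => 1
  | n + 2 => X * F (n + 1) + F n

lemma F_zero : F 0 = 0 := rfl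
lemma F_one : F 1 = 1 := rfl
lemma F_add_two (n : ℕ) : F (n + 2) = X * F (n + 1) + F n := rfl

lemma two_zero : (2 : (ZMod 2)[X]) = 0 := CharTwo.two_eq_zero

lemma F_add (m n : ℕ) : F (m + n + 1) = F (m + 1) * F (n + 1) + F m * F n := by
  induction n using Nat.strong_induction_on with
  | _ n ih =>
    match n with
    | 0 => simp [F_zero, F_one]
    | 1 =>
      rw [show m + 1 + 1 = m + 2 from rfl, F_add_two, show (1 + 1 : ℕ) = 0 + 2 from rfl,
        F_add_two 0, F_zero, F_one]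
      simp [F_one]
      ring
    | n + 2 =>
      have h1 := ih (n + 1) (by omega)
      have h0 := ih n (by omega)
      rw [show m + (n + 2) + 1 = (m + n + 1) + 2 from by ring, F_add_two,
        show m + n + 1 + 1 = m + (n + 1) + 1 from by ring, h1, h0,
        show n + 2 + 1 = (n + 1) + 2 from rfl, F_add_two (n + 1), F_add_two n]
      ring

lemma F_cassini (m : ℕ) : F (m + 2) * F m + F (m + 1) ^ 2 = 1 := by
  induction m with
  | zero => simp [F_zero, F_one]
  | succ m ih =>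
    have h1 := F_add_two m
    have h2 := F_add_two (m + 1)
    rw [show m + 1 + 2 = m + 1 + 2 from rfl, h2]
    rw [show m + 1 + 1 = m + 2 from rfl]
    linear_combination ih + F (m + 2) * h1 + (X * F (m + 1) * F (m + 2)) * two_zero

lemma F_double (m : ℕ) : F (2 * (m + 1)) = X * F (m + 1) ^ 2 := by
  have h := F_add (m + 1) m
  rw [show m + 1 + m + 1 = 2 * (m + 1) from by ring] at h
  have h1 := F_add_two m
  rw [h, show m + 1 + 1 = m + 2 from rfl, h1]
  linear_combination (F (m + 1) * F m) * two_zero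

lemma F_double_succ (m : ℕ) : F (2 * m + 1) = F (m + 1) ^ 2 + F m ^ 2 := by
  have h := F_add m m
  rw [show m + m + 1 = 2 * m + 1 from by ring] at h
  rw [h]
  ring

lemma F_triple (m : ℕ) : F (3 * (m + 1)) = F (m + 1) * (X * F (m + 1) + 1) ^ 2 := by
  have h := F_add (2 * (m + 1)) m
  rw [show 2 * (m + 1) + m + 1 = 3 * (m + 1) from by ring, F_double_succ (m + 1),
    F_double m] at h
  have h1 := F_add_two m
  have h2 := F_cassini m
  rw [h, show m + 1 + 1 = m + 2 from rfl]
  rw [h1] at h2 ⊢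
  linear_combination (F (m + 1)) * h2 +
    (X * F (m + 1) ^ 2 * F m - X * F (m + 1) ^ 2) * two_zero

/-! ## The polynomials of index `3 ^ k` -/

/-- The iterates of `y ↦ y (y + 1) ^ 2`, starting from `X`. -/
noncomputable def D : ℕ → (ZMod 2)[X]
  | 0 => X
  | k + 1 => D k * (D k + 1) ^ 2

/-- `U k = ∏ (D i + 1)`, `1 ≤ i < k`, for `k ≥ 1`. -/
noncomputable def U (k : ℕ) : (ZMod 2)[X] := ∏ i ∈ Finset.Ico 1 k, (D i + 1)

lemma X_mul_F (k : ℕ) : X * F (3 ^ k) = D k := by
  induction k with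
  | zero => simp [F_one, D]
  | succ k ih =>
    have hpos : 0 < 3 ^ k := by positivity
    obtain ⟨m, hm⟩ : ∃ m, 3 ^ k = m + 1 := ⟨3 ^ k - 1, by omega⟩
    rw [pow_succ, mul_comm (3 ^ k) 3, hm, F_triple m, D, ← ih, hm]
    ring

lemma D_eq (k : ℕ) : D (k + 1) = X * ((X + 1) * U (k + 1)) ^ 2 := by
  induction k with
  | zero => simp [D, U]
  | succ k ih =>
    rw [D, U, Finset.prod_Ico_succ_top (by omega), ← U]
    nth_rewrite 1 [ih]
    ring

lemma F_pow (k : ℕ) : F (2 * 3 ^ (k + 1)) = X * (X + 1) ^ 4 * U (k + 1) ^ 4 := by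
  have hpos : 0 < 3 ^ (k + 1) := by positivity
  obtain ⟨m, hm⟩ : ∃ m, 3 ^ (k + 1) = m + 1 := ⟨3 ^ (k + 1) - 1, by omega⟩
  have h1 := X_mul_F (k + 1)
  rw [D_eq] at h1
  have h2 : F (3 ^ (k + 1)) = ((X + 1) * U (k + 1)) ^ 2 := mul_left_cancel₀ X_ne_zero h1
  rw [hm, F_double, ← hm, h2]
  ring

end Q167.LightsOut
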