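import Mathlib

/-!
# The Lights Out grid

The matrix of the `n × n` Lights Out grid and its nullity over the field with two elements.
-/

set_option autoImplicit false

namespace Q167.LightsOut

/-- Two cells of the `n × n` grid are adjacent when they differ by `1` in exactly one coordinate
(and agree in the other one). -/
def Adjacent {n : ℕ} (c c' : Fin n × Fin n) : Prop :=
  (c.1 = c'.1 ∧ ((c.2 : ℕ) + 1 = c'.2 ∨ (c'.2 : ℕ) + 1 = c.2)) ∨
  (c.2 = c'.2 ∧ ((c.1 : ℕ) + 1 = c'.1 ∨ (c'.1 : ℕ) + 1 = c.1))

open Classical in
/-- The matrix `A_n` over the field with two elements: its entry `(c, c')` is `1` when `c = c'` or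
`c`, `c'` are adjacent, and `0` otherwise. -/
noncomputable def gridMatrix (n : ℕ) : Matrix (Fin n × Fin n) (Fin n × Fin n) (ZMod 2) :=
  Matrix.of fun c c' => if c = c' ∨ Adjacent c c' then 1 else 0

/-- The nullity `d(n)`: the dimension of the kernel of `A_n` over the field with two elements. -/
noncomputable def nullity (n : ℕ) : ℕ :=
  Module.finrank (ZMod 2) (LinearMap.ker (gridMatrix n).mulVecLin)

end Q167.LightsOut
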