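import Pool.Agent.Q167.LightsOut.Grid
import Pool.Agent.Q167.LightsOut.Coprime

/-!
# The kernel of the grid matrix
-/

set_option autoImplicit false

namespace Q167.LightsOut

open Polynomial

/-! ## The path -/

/-- Extension by zero of a vector with entries `1, ..., n`. -/
def ext {n : ℕ} (v : Fin n → ZMod 2) (j : ℕ) : ZMod 2 :=
  if h : 1 ≤ j ∧ j ≤ n then v ⟨j - 1, by omega⟩ else 0

lemma ext_zero {n : ℕ} (v : Fin n → ZMod 2) : ext v 0 = 0 := by simp [ext]

lemma ext_top {n : ℕ} (v : Fin n → ZMod 2) : ext v (n + 1) = 0 := by simp [ext]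

lemma ext_fin {n : ℕ} (v : Fin n → ZMod 2) (j : Fin n) : ext v (j + 1) = v j := by
  simp [ext]

lemma ext_add {n : ℕ} (v w : Fin n → ZMod 2) (j : ℕ) : ext (v + w) j = ext v j + ext w j := by
  unfold ext; split_ifs <;> simp

lemma ext_smul {n : ℕ} (a : ZMod 2) (v : Fin n → ZMod 2) (j : ℕ) :
    ext (a • v) j = a * ext v j := by
  unfold ext; split_ifs <;> simp

lemma eq_zero_of_ext {n : ℕ} {v : Fin n → ZMod 2} (h : ∀ j, 1 ≤ j → j ≤ n → ext v j = 0) :
    v = 0 := by
  funext j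
  have := h (j + 1) (by omega) (by omega)
  rwa [ext_fin] at this

/-- The adjacency operator of the path. -/
def P (n : ℕ) : Module.End (ZMod 2) (Fin n → ZMod 2) where
  toFun v := fun j => ext v j + ext v (j + 2)
  map_add' v w := by funext j; simp only [ext_add, Pi.add_apply]; ring
  map_smul' a v := by
    funext j; simp only [ext_smul, Pi.smul_apply, smul_eq_mul, RingHom.id_apply]; ring

lemma ext_P {n : ℕ} (v : Fin n → ZMod 2) {j : ℕ} (h1 : 1 ≤ j) (h2 : j ≤ n) :
    ext (P n v) j = ext v (j - 1) + ext v (j + 1) := by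
  obtain ⟨i, rfl⟩ : ∃ i, j = i + 1 := ⟨j - 1, by omega⟩
  have h3 := ext_fin (P n v) ⟨i, by omega⟩
  simp only at h3
  rw [h3]
  simp [P]

lemma two_zero2 : (2 : ZMod 2) = 0 := by decide

lemma ext_aeval_F {n : ℕ} (i : ℕ) (hi : i ≤ n + 1) (v : Fin n → ZMod 2) :
    ext (aeval (P n) (F i) v) 1 = ext v i := by
  induction i using Nat.strong_induction_on generalizing v with
  | _ i ih =>
    match i with
    | 0 => simp [F_zero, ext]
    | 1 => simp [F_one]
    | i + 2 =>
      rw [F_add_two, mul_comm, map_add, map_mul, aeval_X, LinearMap.add_apply, Module.End.mul_apply,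
        ext_add, ih (i + 1) (by omega) (by omega), ih i (by omega) (by omega),
        ext_P v (by omega) (by omega)]
      simp only [Nat.add_sub_cancel]
      linear_combination (ext v i) * two_zero2

lemma aeval_F_top (n : ℕ) : aeval (P n) (F (n + 1)) = 0 := by
  apply LinearMap.ext
  intro v
  apply eq_zero_of_ext
  intro j _ hj
  rw [← ext_aeval_F j (by omega), ← Module.End.mul_apply, ← map_mul, mul_comm, map_mul,
    Module.End.mul_apply, ext_aeval_F (n + 1) le_rfl, ext_top]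

/-! ## The grid -/

/-- Extension by zero of a grid vector. -/
def ext2 {n : ℕ} (x : Fin n × Fin n → ZMod 2) (i j : ℕ) : ZMod 2 :=
  if h : (1 ≤ i ∧ i ≤ n) ∧ (1 ≤ j ∧ j ≤ n) then x (⟨i - 1, by omega⟩, ⟨j - 1, by omega⟩) else 0

/-- The row `i` (`1 ≤ i ≤ n`) of a grid vector. -/
def row {n : ℕ} (x : Fin n × Fin n → ZMod 2) (i : ℕ) : Fin n → ZMod 2 :=
  fun j => ext2 x i (j + 1)

lemma ext_row {n : ℕ} (x : Fin n × Fin n → ZMod 2) (i j : ℕ) : ext (row x i) j = ext2 x i j := by
  unfold ext row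
  split_ifs with h
  · simp only
    congr 1
    omega
  · unfold ext2
    rw [dif_neg]
    intro h'
    exact h h'.2

lemma sum_indicator {n : ℕ} (x : Fin n × Fin n → ZMod 2) (a b : ℕ) :
    ∑ c : Fin n × Fin n, (if (c.1 : ℕ) + 1 = a ∧ (c.2 : ℕ) + 1 = b then (1 : ZMod 2) else 0) * x c
      = ext2 x a b := by
  classical
  unfold ext2
  split_ifs with h
  · rw [Finset.sum_eq_single (⟨a - 1, by omega⟩, ⟨b - 1, by omega⟩)]
    · simp only
      rw [if_pos (by omega), one_mul]
    · rintro ⟨c, d⟩ _ hne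
      rw [if_neg, zero_mul]
      rintro ⟨h1, h2⟩
      apply hne
      simp only at h1 h2
      rw [Prod.mk.injEq]
      constructor
      · apply Fin.ext; simp only; omega
      · apply Fin.ext; simp only; omega
    · intro h; exact absurd (Finset.mem_univ _) h
  · apply Finset.sum_eq_zero
    rintro ⟨c, d⟩ _
    rw [if_neg, zero_mul]
    rintro ⟨h1, h2⟩
    simp only at h1 h2
    apply h
    have := c.2
    have := d.2
    omega

lemma gridMatrix_apply {n : ℕ} (c c' : Fin n × Fin n) :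
    gridMatrix n c c' =
      (if (c'.1 : ℕ) + 1 = c.1 + 1 ∧ (c'.2 : ℕ) + 1 = c.2 + 1 then (1 : ZMod 2) else 0)
      + (if (c'.1 : ℕ) + 1 = c.1 ∧ (c'.2 : ℕ) + 1 = c.2 + 1 then (1 : ZMod 2) else 0)
      + (if (c'.1 : ℕ) + 1 = c.1 + 2 ∧ (c'.2 : ℕ) + 1 = c.2 + 1 then (1 : ZMod 2) else 0)
      + (if (c'.1 : ℕ) + 1 = c.1 + 1 ∧ (c'.2 : ℕ) + 1 = c.2 then (1 : ZMod 2) else 0)
      + (if (c'.1 : ℕ) + 1 = c.1 + 1 ∧ (c'.2 : ℕ) + 1 = c.2 + 2 then (1 : ZMod 2) else 0) := by
  obtain ⟨a, b⟩ := c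
  obtain ⟨c, d⟩ := c'
  unfold gridMatrix Adjacent
  simp only [Matrix.of_apply, Prod.mk.injEq, Fin.ext_iff]
  split_ifs <;> first | omega | simp

lemma mulVec_apply {n : ℕ} (x : Fin n × Fin n → ZMod 2) (c : Fin n × Fin n) :
    (gridMatrix n).mulVec x c =
      ext2 x (c.1 + 1) (c.2 + 1) + ext2 x c.1 (c.2 + 1) + ext2 x (c.1 + 2) (c.2 + 1)
      + ext2 x (c.1 + 1) c.2 + ext2 x (c.1 + 1) (c.2 + 2) := by
  unfold Matrix.mulVec dotProduct
  simp only [gridMatrix_apply, add_mul, Finset.sum_add_distrib, sum_indicator]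

lemma mem_ker_iff {n : ℕ} (x : Fin n × Fin n → ZMod 2) :
    x ∈ LinearMap.ker (gridMatrix n).mulVecLin ↔
      ∀ i j : ℕ, i < n → j < n →
        ext2 x (i + 1) (j + 1) + ext2 x i (j + 1) + ext2 x (i + 2) (j + 1)
          + ext2 x (i + 1) j + ext2 x (i + 1) (j + 2) = 0 := by
  rw [LinearMap.mem_ker, Matrix.mulVecLin_apply]
  constructor
  · intro h i j hi hj
    have := congrFun h (⟨i, hi⟩, ⟨j, hj⟩)
    rw [mulVec_apply] at this
    exact this
  · intro h
    funext c
    rw [mulVec_apply]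
    exact h c.1 c.2 c.1.2 c.2.2

lemma row_zero {n : ℕ} (x : Fin n × Fin n → ZMod 2) : row x 0 = 0 := by
  funext j; simp [row, ext2]

lemma row_top {n : ℕ} (x : Fin n × Fin n → ZMod 2) : row x (n + 1) = 0 := by
  funext j; simp [row, ext2]

lemma row_succ {n : ℕ} {x : Fin n × Fin n → ZMod 2}
    (hx : x ∈ LinearMap.ker (gridMatrix n).mulVecLin) {i : ℕ} (hi : i < n) :
    row x (i + 2) = (P n + 1) (row x (i + 1)) + row x i := by
  rw [mem_ker_iff] at hx
  funext j
  have h := hx i j hi j.2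
  have h1 : ext2 x (i + 1) (j : ℕ) = ext (row x (i + 1)) j := (ext_row _ _ _).symm
  have h2 : ext2 x (i + 1) ((j : ℕ) + 2) = ext (row x (i + 1)) (j + 2) := (ext_row _ _ _).symm
  rw [h1, h2] at h
  have h3 : (P n (row x (i + 1))) j = ext (row x (i + 1)) j + ext (row x (i + 1)) (j + 2) := rfl
  simp only [LinearMap.add_apply, Pi.add_apply, Module.End.one_apply, h3]
  have h4 : row x (i + 2) j = ext2 x (i + 2) (j + 1) := rfl
  have h5 : row x (i + 1) j = ext2 x (i + 1) (j + 1) := rfl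
  have h6 : row x i j = ext2 x i (j + 1) := rfl
  rw [h4, h5, h6]
  linear_combination h - (ext2 x (i + 1) (j + 1) + ext2 x i (j + 1) +
    ext (row x (i + 1)) j + ext (row x (i + 1)) (j + 2)) * two_zero2

lemma row_eq {n : ℕ} {x : Fin n × Fin n → ZMod 2}
    (hx : x ∈ LinearMap.ker (gridMatrix n).mulVecLin) (i : ℕ) (hi : i ≤ n + 1) :
    row x i = aeval (P n) ((F i).comp (X + 1)) (row x 1) := by
  induction i using Nat.strong_induction_on with
  | _ i ih =>
    match i with
    | 0 => simp [F_zero, row_zero]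
    | 1 => simp [F_one]
    | i + 2 =>
      rw [row_succ hx (by omega), ih (i + 1) (by omega) (by omega), ih i (by omega) (by omega),
        F_add_two, add_comp, mul_comp, X_comp, map_add, map_mul]
      simp [Module.End.mul_apply, LinearMap.add_apply]

lemma quad_row {n k : ℕ} (hk : 1 ≤ k) (hn : n + 1 = 2 * 3 ^ k) {x : Fin n × Fin n → ZMod 2}
    (hx : x ∈ LinearMap.ker (gridMatrix n).mulVecLin) :
    P n (P n (row x 1) + row x 1) = 0 := by
  obtain ⟨a, b, hab⟩ := bezout k hk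
  rw [← hn] at hab
  have h1 : aeval (P n) (X * (X + 1) : (ZMod 2)[X]) (row x 1) = 0 := by
    rw [← hab, map_add, map_mul, map_mul, aeval_F_top, mul_zero, zero_add, Module.End.mul_apply,
      ← row_eq hx (n + 1) le_rfl, row_top, map_zero]
  simpa [Module.End.mul_apply] using h1

/-- A kernel vector is determined by two of its entries. -/
lemma eq_zero_of_two {n k : ℕ} (hk : 1 ≤ k) (hn : n + 1 = 2 * 3 ^ k)
    {x : Fin n × Fin n → ZMod 2} (hx : x ∈ LinearMap.ker (gridMatrix n).mulVecLin)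
    (h1 : ext2 x 1 1 = 0) (h2 : ext2 x 1 2 = 0) : x = 0 := by
  have hnpos : 2 ≤ n := by
    have : 3 ^ 1 ≤ 3 ^ k := Nat.pow_le_pow_right (by norm_num) hk
    omega
  set r := row x 1 with hr
  have hr1 : ext r 1 = 0 := by rw [hr, ext_row, h1]
  have hr2 : ext r 2 = 0 := by rw [hr, ext_row, h2]
  set w := P n r + r with hw
  have hPw : P n w = 0 := quad_row hk hn hx
  have hwext : ∀ j, 1 ≤ j → j ≤ n → ext w j = ext r (j - 1) + ext r (j + 1) + ext r j := by
    intro j hj1 hj2
    rw [hw, ext_add, ext_P r hj1 hj2]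
  have hw1 : ext w 1 = 0 := by
    rw [hwext 1 le_rfl (by omega), ext_zero, hr1, hr2]; simp
  have hw0 : ∀ j, j ≤ n → ext w j = 0 := by
    intro j
    induction j using Nat.strong_induction_on with
    | _ j ih =>
      intro hj
      match j with
      | 0 => exact ext_zero w
      | 1 => exact hw1
      | j + 2 =>
        have h3 := ext_P w (j := j + 1) (by omega) (by omega)
        rw [hPw] at h3
        have h4 : ext (0 : Fin n → ZMod 2) (j + 1) = 0 := by simp [ext]
        rw [h4, Nat.add_sub_cancel, ih j (by omega) (by omega), zero_add] at h3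
        exact h3.symm
  have hr0 : ∀ j, j ≤ n → ext r j = 0 := by
    intro j
    induction j using Nat.strong_induction_on with
    | _ j ih =>
      intro hj
      match j with
      | 0 => exact ext_zero r
      | 1 => exact hr1
      | j + 2 =>
        have h3 := hwext (j + 1) (by omega) (by omega)
        rw [hw0 (j + 1) (by omega), Nat.add_sub_cancel, ih j (by omega) (by omega),
          ih (j + 1) (by omega) (by omega)] at h3
        simpa using h3.symm
  have hrz : r = 0 := eq_zero_of_ext (fun j _ hj => hr0 j hj)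
  funext c
  have h5 := row_eq hx (c.1 + 1) (by omega)
  rw [← hr, hrz, map_zero] at h5
  have h6 := congrFun h5 c.2
  simpa [row, ext2, Nat.succ_le_iff] using h6

/-! ## Two explicit kernel vectors -/

/-- `0, 1, 0, 1, ...` -/
def s₀ (j : ℕ) : ZMod 2 := if j % 2 = 1 then 1 else 0

/-- `0, 1, 1, 0, 1, 1, ...` -/
def s₁ (j : ℕ) : ZMod 2 := if j % 3 = 0 then 0 else 1

lemma s₀_rec (j : ℕ) : s₀ j + s₀ (j + 2) = 0 := by
  unfold s₀
  have h : (j + 2) % 2 = j % 2 := by omega
  rw [h]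
  split_ifs
  · decide
  · simp

lemma s₁_rec (j : ℕ) : s₁ j + s₁ (j + 1) + s₁ (j + 2) = 0 := by
  unfold s₁
  have h : j % 3 = 0 ∨ j % 3 = 1 ∨ j % 3 = 2 := by omega
  rcases h with h | h | h
  · rw [if_pos h, if_neg (by omega), if_neg (by omega)]; decide
  · rw [if_neg (by omega), if_neg (by omega), if_pos (by omega)]; decide
  · rw [if_neg (by omega), if_pos (by omega), if_neg (by omega)]; decide

/-- the product vector -/
def prodVec (n : ℕ) (s t : ℕ → ZMod 2) : Fin n × Fin n → ZMod 2 :=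
  fun c => s (c.1 + 1) * t (c.2 + 1)

lemma ext2_prodVec {n : ℕ} {s t : ℕ → ZMod 2} (hs : s 0 = 0) (ht : t 0 = 0)
    (hs' : s (n + 1) = 0) (ht' : t (n + 1) = 0) {i j : ℕ} (hi : i ≤ n + 1) (hj : j ≤ n + 1) :
    ext2 (prodVec n s t) i j = s i * t j := by
  unfold ext2 prodVec
  split_ifs with h
  · simp only
    congr 2 <;> omega
  · by_cases h1 : 1 ≤ i ∧ i ≤ n
    · have h2 : j = 0 ∨ j = n + 1 := by omega
      rcases h2 with rfl | rfl
      · rw [ht, mul_zero]
      · rw [ht', mul_zero]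
    · have h2 : i = 0 ∨ i = n + 1 := by omega
      rcases h2 with rfl | rfl
      · rw [hs, zero_mul]
      · rw [hs', zero_mul]

lemma prodVec_mem {n : ℕ} (hn : (n + 1) % 6 = 0) :
    prodVec n s₀ s₁ ∈ LinearMap.ker (gridMatrix n).mulVecLin ∧
    prodVec n s₁ s₀ ∈ LinearMap.ker (gridMatrix n).mulVecLin := by
  have a0 : s₀ 0 = 0 := rfl
  have b0 : s₁ 0 = 0 := rfl
  have a1 : s₀ (n + 1) = 0 := by unfold s₀; rw [if_neg (by omega)]
  have b1 : s₁ (n + 1) = 0 := by unfold s₁; rw [if_pos (by omega)]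
  constructor
  · rw [mem_ker_iff]
    intro i j hi hj
    rw [ext2_prodVec a0 b0 a1 b1 (by omega) (by omega), ext2_prodVec a0 b0 a1 b1 (by omega) (by omega),
      ext2_prodVec a0 b0 a1 b1 (by omega) (by omega), ext2_prodVec a0 b0 a1 b1 (by omega) (by omega),
      ext2_prodVec a0 b0 a1 b1 (by omega) (by omega)]
    linear_combination (s₁ (j + 1)) * s₀_rec i + (s₀ (i + 1)) * s₁_rec j
  · rw [mem_ker_iff]
    intro i j hi hj
    rw [ext2_prodVec b0 a0 b1 a1 (by omega) (by omega), ext2_prodVec b0 a0 b1 a1 (by omega) (by omega),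
      ext2_prodVec b0 a0 b1 a1 (by omega) (by omega), ext2_prodVec b0 a0 b1 a1 (by omega) (by omega),
      ext2_prodVec b0 a0 b1 a1 (by omega) (by omega)]
    linear_combination (s₀ (j + 1)) * s₁_rec i + (s₁ (i + 1)) * s₀_rec j

/-- Two entries of a kernel vector. -/
def twoEntries (n : ℕ) : (Fin n × Fin n → ZMod 2) →ₗ[ZMod 2] ZMod 2 × ZMod 2 where
  toFun x := (ext2 x 1 1, ext2 x 1 2)
  map_add' x y := by
    unfold ext2; split_ifs <;> simp
  map_smul' a x := by
    unfold ext2; split_ifs <;> simp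

/-- The nullity is two for `n = 2 * 3 ^ k - 1`, `k ≥ 1`. -/
theorem nullity_eq_two {n k : ℕ} (hk : 1 ≤ k) (hn : n + 1 = 2 * 3 ^ k) : nullity n = 2 := by
  have h6 : (n + 1) % 6 = 0 := by
    obtain ⟨m, rfl⟩ : ∃ m, k = m + 1 := ⟨k - 1, by omega⟩
    rw [hn, pow_succ]
    omega
  have hn5 : 5 ≤ n := by omega
  let φ : LinearMap.ker (gridMatrix n).mulVecLin →ₗ[ZMod 2] ZMod 2 × ZMod 2 :=
    (twoEntries n).comp (Submodule.subtype _)
  have hinj : Function.Injective φ := by
    rw [← LinearMap.ker_eq_bot, LinearMap.ker_eq_bot']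
    rintro ⟨x, hx⟩ h0
    have h1 : (ext2 x 1 1, ext2 x 1 2) = ((0, 0) : ZMod 2 × ZMod 2) := h0
    rw [Prod.mk.injEq] at h1
    have := eq_zero_of_two hk hn hx h1.1 h1.2
    exact Subtype.ext this
  have a0 : s₀ 0 = 0 := rfl
  have b0 : s₁ 0 = 0 := rfl
  have a1 : s₀ (n + 1) = 0 := by unfold s₀; rw [if_neg (by omega)]
  have b1 : s₁ (n + 1) = 0 := by unfold s₁; rw [if_pos (by omega)]
  have hsurj : Function.Surjective φ := by
    obtain ⟨m1, m2⟩ := prodVec_mem h6
    rintro ⟨p, q⟩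
    refine ⟨q • ⟨_, m1⟩ + (p + q) • ⟨_, m2⟩, ?_⟩
    rw [map_add, map_smul, map_smul]
    have e1 : φ ⟨_, m1⟩ = (1, 1) := by
      change (ext2 (prodVec n s₀ s₁) 1 1, ext2 (prodVec n s₀ s₁) 1 2) = _
      rw [ext2_prodVec a0 b0 a1 b1 (by omega) (by omega),
        ext2_prodVec a0 b0 a1 b1 (by omega) (by omega)]
      decide
    have e2 : φ ⟨_, m2⟩ = (1, 0) := by
      change (ext2 (prodVec n s₁ s₀) 1 1, ext2 (prodVec n s₁ s₀) 1 2) = _
      rw [ext2_prodVec b0 a0 b1 a1 (by omega) (by omega),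
        ext2_prodVec b0 a0 b1 a1 (by omega) (by omega)]
      decide
    rw [e1, e2]
    ext
    · simp only [Prod.smul_mk, smul_eq_mul, mul_one, Prod.mk_add_mk]
      linear_combination q * two_zero2
    · simp
  have he := LinearEquiv.finrank_eq (LinearEquiv.ofBijective φ ⟨hinj, hsurj⟩)
  unfold nullity
  rw [he]
  simp

end Q167.LightsOut
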